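import Mathlib
import Pool.Agent.W_626a77_h48.Adapter

/-!
A lower bound for the number of difference vectors of planar sets in general position.

Outline of the proof.  Let `S` be a set of `n` points in general position with `V` difference
vectors; by Plünnecke's inequality `|S + S| ≤ K n` with `K = (V / n) ^ 2`.  A `ℚ`-linear map
transports `S` to a set `A` of integers.  The Freiman-Ruzsa theorem
`Pool.Agent.QFR.quasi_optimal` covers `A` by few translates `T` of a linear image of the lattice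
points of a convex body `B` of small dimension.  If `n` is large then two points of `S` differ by a
vector `w` whose preimage is in `(2 / J) B`, so that the set `S + {0, w, ..., J w}` corresponds to
a subset of `T + φ (3 B)` and is small.  As `S` is in general position this set has at least
`n (J + 1) / 2` points, which bounds `J` and then `n`.
-/

set_option autoImplicit false

namespace Pool.Agent.Results.MP_577aaf_co.LowerBound

open scoped Pointwise

/-- A finite set of points of the plane is in general position if no three distinct points of it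
are collinear. -/
def GeneralPosition (S : Finset (ℝ × ℝ)) : Prop :=
  ∀ p ∈ S, ∀ q ∈ S, ∀ r ∈ S, p ≠ q → p ≠ r → q ≠ r → ¬ Collinear ℝ {p, q, r}

/-- The set of vectors `q - p` with `p, q ∈ S` (`p = q` is allowed). -/
noncomputable def vectors (S : Finset (ℝ × ℝ)) : Finset (ℝ × ℝ) :=
  (S ×ˢ S).image fun x => x.2 - x.1

/-- The minimum number of vectors determined by `n` points in general position in the plane. -/
noncomputable def v (n : ℕ) : ℕ :=
  sInf {m | ∃ S : Finset (ℝ × ℝ), S.card = n ∧ GeneralPosition S ∧ (vectors S).card = m}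

/-! ### Convex bodies -/

theorem packing {d : ℕ} {B : Set (Fin d → ℝ)} (hc : Convex ℝ B) (hk : IsCompact B)
    (hi : (interior B).Nonempty) (hs : ∀ x ∈ B, -x ∈ B) (r R : ℝ) (hr : 0 < r) (hR : 0 ≤ R)
    (X : Finset (Fin d → ℝ)) (hX : ∀ x ∈ X, ∃ b ∈ B, x = R • b)
    (hsep : ∀ x ∈ X, ∀ y ∈ X, x ≠ y → ∀ b ∈ B, x - y ≠ r • b) :
    (X.card : ℝ) ≤ (2 * R / r + 1) ^ d := by
  classical
  let μ : MeasureTheory.Measure (Fin d → ℝ) := MeasureTheory.volume
  have hpos : 0 < μ B :=
    lt_of_lt_of_le (isOpen_interior.measure_pos μ hi) (MeasureTheory.measure_mono interior_subset)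
  have hfin : μ B < ⊤ := hk.measure_lt_top
  have hr2 : 0 < r / 2 := by positivity
  have hm : ∀ s : ℝ, 0 ≤ s → μ (s • B) = ENNReal.ofReal (s ^ d) * μ B := by
    intro s hs0
    rw [MeasureTheory.Measure.addHaar_smul, Module.finrank_fin_fun, abs_of_nonneg (by positivity)]
  have hdisj : (X : Set (Fin d → ℝ)).PairwiseDisjoint fun x => x +ᵥ ((r / 2) • B) := by
    intro x hx y hy hxy
    rw [Function.onFun, Set.disjoint_left]
    intro z hz1 hz2
    rw [Set.mem_vadd_set] at hz1 hz2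
    obtain ⟨z1, hz1, rfl⟩ := hz1
    obtain ⟨z2, hz2, h⟩ := hz2
    obtain ⟨b1, hb1, rfl⟩ := Set.mem_smul_set.1 hz1
    obtain ⟨b2, hb2, rfl⟩ := Set.mem_smul_set.1 hz2
    have hmid : (1 / 2 : ℝ) • b2 + (1 / 2 : ℝ) • (-b1) ∈ B :=
      hc hb2 (hs _ hb1) (by norm_num) (by norm_num) (by norm_num)
    refine hsep x hx y hy hxy _ hmid ?_
    rw [vadd_eq_add, vadd_eq_add] at h
    have h1 : x - y = (r / 2) • b2 - (r / 2) • b1 := by
      rw [sub_eq_sub_iff_add_eq_add, ← h, add_comm]
    rw [h1, smul_add, smul_smul, smul_smul, smul_neg, ← sub_eq_add_neg]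
    congr 2 <;> ring
  have hsub : (⋃ x ∈ X, x +ᵥ ((r / 2) • B)) ⊆ (R + r / 2) • B := by
    intro z hz
    simp only [Set.mem_iUnion] at hz
    obtain ⟨x, hx, hz⟩ := hz
    rw [Set.mem_vadd_set] at hz
    obtain ⟨z1, hz1, rfl⟩ := hz
    obtain ⟨b1, hb1, rfl⟩ := Set.mem_smul_set.1 hz1
    obtain ⟨b, hb, rfl⟩ := hX x hx
    rw [hc.add_smul hR hr2.le]
    exact Set.add_mem_add (Set.smul_mem_smul_set hb) (Set.smul_mem_smul_set hb1)
  have hmeas : ∀ x ∈ X, MeasurableSet (x +ᵥ ((r / 2) • B)) := by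
    intro x _
    have : IsCompact (x +ᵥ ((r / 2) • B)) := (hk.smul (r / 2)).vadd x
    exact this.isClosed.measurableSet
  have h1 : μ (⋃ x ∈ X, x +ᵥ ((r / 2) • B)) = ∑ x ∈ X, μ (x +ᵥ ((r / 2) • B)) :=
    MeasureTheory.measure_biUnion_finset hdisj hmeas
  have h2 : ∑ x ∈ X, μ (x +ᵥ ((r / 2) • B)) = X.card * (ENNReal.ofReal ((r / 2) ^ d) * μ B) := by
    rw [Finset.sum_congr rfl fun x _ => ?_, Finset.sum_const, nsmul_eq_mul]
    rw [MeasureTheory.measure_vadd, hm _ hr2.le]
  have h3 := MeasureTheory.measure_mono (μ := μ) hsub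
  rw [h1, h2, hm _ (by positivity), ← mul_assoc,
    ENNReal.mul_le_mul_iff_left hpos.ne' hfin.ne] at h3
  rw [← ENNReal.ofReal_natCast, ← ENNReal.ofReal_mul (by positivity),
    ENNReal.ofReal_le_ofReal_iff (by positivity)] at h3
  have h4 : (2 * R / r + 1) ^ d * (r / 2) ^ d = (R + r / 2) ^ d := by
    rw [← mul_pow]
    congr 1
    field_simp
  rw [← h4] at h3
  exact le_of_mul_le_mul_right h3 (by positivity)

/-- Lattice points of a set. -/
def lat {d : ℕ} (B : Set (Fin d → ℝ)) : Set (Fin d → ℤ) := {x | (fun i => (x i : ℝ)) ∈ B}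

theorem lat_finite {d : ℕ} {B : Set (Fin d → ℝ)} (hk : IsCompact B) : (lat B).Finite := by
  obtain ⟨M, hM⟩ := hk.isBounded.exists_norm_le
  refine (Set.finite_Icc (fun _ : Fin d => -⌈M⌉) (fun _ : Fin d => ⌈M⌉)).subset ?_
  intro x hx
  have h := hM _ hx
  have h1 : ∀ i, |(x i : ℝ)| ≤ M := fun i => by
    have := norm_le_pi_norm (fun i => (x i : ℝ)) i
    rw [Real.norm_eq_abs] at this
    exact this.trans h
  refine ⟨fun i => ?_, fun i => ?_⟩
  · have h2 := (abs_le.1 (h1 i)).1
    have h3 : (-(⌈M⌉ : ℤ) : ℝ) ≤ (x i : ℝ) := by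
      have := Int.le_ceil M
      linarith
    exact_mod_cast h3
  · have h2 := (abs_le.1 (h1 i)).2
    have h3 : (x i : ℝ) ≤ ((⌈M⌉ : ℤ) : ℝ) := h2.trans (Int.le_ceil M)
    exact_mod_cast h3

theorem lat_growth {d : ℕ} {B : Set (Fin d → ℝ)} (hc : Convex ℝ B) (hk : IsCompact B)
    (hi : (interior B).Nonempty) (hs : ∀ x ∈ B, -x ∈ B) :
    (lat ((3 : ℝ) • B)).ncard ≤ 7 ^ d * (lat B).ncard := by
  classical
  have hk3 : IsCompact ((3 : ℝ) • B) := hk.smul 3
  have hf3 := lat_finite hk3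
  have hf1 := lat_finite hk
  obtain ⟨b0, hb0⟩ := hi
  have hb0' := interior_subset hb0
  have hzero : (0 : Fin d → ℝ) ∈ B := by
    have h := hc hb0' (hs _ hb0') (by norm_num : (0 : ℝ) ≤ 1 / 2) (by norm_num : (0 : ℝ) ≤ 1 / 2)
      (by norm_num)
    rw [smul_neg, add_neg_cancel] at h
    exact h
  let Z3 := hf3.toFinset
  let Z1 := hf1.toFinset
  let F : Finset (Finset (Fin d → ℤ)) := Z3.powerset.filter
    (fun P => ∀ p ∈ P, ∀ q ∈ P, p ≠ q → p - q ∉ lat B)
  have hF : F.Nonempty := ⟨∅, by simp [F]⟩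
  obtain ⟨P, hP, hmax⟩ := Finset.exists_max_image F Finset.card hF
  simp only [F, Finset.mem_filter, Finset.mem_powerset] at hP
  obtain ⟨hPZ, hPs⟩ := hP
  have hcov : ∀ x ∈ Z3, ∃ p ∈ P, x - p ∈ lat B := by
    intro x hx
    by_contra hcon
    push Not at hcon
    have hxP : x ∉ P := by
      intro h
      refine hcon x h ?_
      rw [sub_self]
      have h0 : (fun i => (((0 : Fin d → ℤ) i : ℤ) : ℝ)) = 0 := by
        funext i
        simp
      show (fun i => (((0 : Fin d → ℤ) i : ℤ) : ℝ)) ∈ B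
      rw [h0]
      exact hzero
    have hins : insert x P ∈ F := by
      simp only [F, Finset.mem_filter, Finset.mem_powerset]
      refine ⟨Finset.insert_subset hx hPZ, ?_⟩
      intro p hp q hq hpq
      rw [Finset.mem_insert] at hp hq
      rcases hp with rfl | hp
      · rcases hq with rfl | hq
        · exact absurd rfl hpq
        · exact hcon q hq
      · rcases hq with rfl | hq
        · intro h
          refine hcon p hp ?_
          have h2 := hs _ h
          have h3 : (-fun i => ((p - q) i : ℝ)) = fun i => ((q - p) i : ℝ) := by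
            funext i
            simp
          rw [h3] at h2
          exact h2
        · exact hPs p hp q hq hpq
    have := hmax _ hins
    rw [Finset.card_insert_of_notMem hxP] at this
    omega
  have hcast : Function.Injective (fun (x : Fin d → ℤ) => fun i => (x i : ℝ)) := by
    intro x y h
    funext i
    have h1 : ((x i : ℤ) : ℝ) = ((y i : ℤ) : ℝ) := congrFun h i
    exact_mod_cast h1
  have hPc : P.card ≤ 7 ^ d := by
    have h := packing hc hk ⟨b0, hb0⟩ hs 1 3 one_pos (by norm_num)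
      (P.image fun x => fun i => (x i : ℝ)) ?_ ?_
    · rw [Finset.card_image_of_injective _ hcast] at h
      norm_num at h
      exact_mod_cast h
    · intro x hx
      obtain ⟨p, hp, rfl⟩ := Finset.mem_image.1 hx
      have h1 : p ∈ lat ((3 : ℝ) • B) := by
        have := hPZ hp
        simpa [Z3] using this
      obtain ⟨b, hb, h2⟩ := Set.mem_smul_set.1 h1
      exact ⟨b, hb, h2.symm⟩
    · intro x hx y hy hxy b hb h
      obtain ⟨p, hp, rfl⟩ := Finset.mem_image.1 hx
      obtain ⟨q, hq, rfl⟩ := Finset.mem_image.1 hy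
      refine hPs p hp q hq (fun h => hxy (by rw [h])) ?_
      have h3 : (fun i => ((p - q) i : ℝ)) = b := by
        rw [one_smul] at h
        rw [← h]
        funext i
        simp
      show (fun i => ((p - q) i : ℝ)) ∈ B
      rw [h3]
      exact hb
  have hsub : Z3 ⊆ (P ×ˢ Z1).image fun x => x.1 + x.2 := by
    intro x hx
    obtain ⟨p, hp, h⟩ := hcov x hx
    exact Finset.mem_image.2 ⟨(p, x - p), Finset.mem_product.2 ⟨hp, by simpa [Z1] using h⟩,
      by simp⟩
  rw [Set.ncard_eq_toFinset_card _ hf3, Set.ncard_eq_toFinset_card _ hf1]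
  calc Z3.card ≤ _ := Finset.card_le_card hsub
    _ ≤ _ := Finset.card_image_le
    _ = P.card * Z1.card := Finset.card_product _ _
    _ ≤ 7 ^ d * Z1.card := Nat.mul_le_mul_right _ hPc

/-- A set of integers which is covered by few translates of a linear image of a convex body has a
small sum with some progression whose step is a difference of two of its elements. -/
theorem exists_step (A : Finset ℤ) {d : ℕ} {B : Set (Fin d → ℝ)} (w : Fin d → ℤ) (T : Finset ℤ)
    (hc : Convex ℝ B) (hk : IsCompact B) (hi : (interior B).Nonempty) (hs : ∀ x ∈ B, -x ∈ B)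
    (hcard : (lat B).ncard ≤ A.card)
    (hcov : ∀ a ∈ A, ∃ t ∈ T, ∃ x : Fin d → ℤ, x ∈ lat B ∧ a = t + ∑ i, w i * x i)
    (J : ℕ) (hJ : 0 < J) (hA : T.card * (J + 1) ^ d < A.card) :
    ∃ a ∈ A, ∃ b ∈ A, a ≠ b ∧
      ((A ×ˢ Finset.range (J + 1)).image fun x => x.1 + (x.2 : ℤ) * (a - b)).card ≤
        T.card * (7 ^ d * A.card) := by
  classical
  choose! t ht x hx hax using hcov
  obtain ⟨t0, ht0, hlt⟩ := Finset.exists_lt_card_fiber_of_mul_lt_card_of_maps_to ht hA
  let At := A.filter fun a => t a = t0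
  have hmem : ∀ a ∈ At, a ∈ A ∧ t a = t0 := fun a ha => Finset.mem_filter.1 ha
  have hxinj : Set.InjOn (fun a => fun i => ((x a i : ℤ) : ℝ)) (At : Set ℤ) := by
    intro a ha b hb hab
    have hab' : x a = x b := by
      funext i
      have h3 : ((x a i : ℤ) : ℝ) = ((x b i : ℤ) : ℝ) := congrFun hab i
      exact_mod_cast h3
    have h1 := hax a (hmem a ha).1
    have h2 := hax b (hmem b hb).1
    rw [h1, h2, (hmem a ha).2, (hmem b hb).2, hab']
  have hJr : (0 : ℝ) < J := by exact_mod_cast hJ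
  by_contra hcon
  push Not at hcon
  have hpack := packing hc hk hi hs (2 / J) 1 (by positivity) zero_le_one
    (At.image fun a => fun i => ((x a i : ℤ) : ℝ)) ?_ ?_
  · rw [Finset.card_image_of_injOn hxinj] at hpack
    have h1 : (2 * 1 / (2 / (J : ℝ)) + 1) = J + 1 := by
      field_simp
    rw [h1] at hpack
    have h2 : At.card ≤ (J + 1) ^ d := by exact_mod_cast hpack
    exact absurd hlt (not_lt.2 h2)
  · intro y hy
    obtain ⟨a, ha, rfl⟩ := Finset.mem_image.1 hy
    exact ⟨_, hx a (hmem a ha).1, by rw [one_smul]⟩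
  · intro y hy z hz hyz β hβ h
    obtain ⟨a, ha, rfl⟩ := Finset.mem_image.1 hy
    obtain ⟨b, hb, rfl⟩ := Finset.mem_image.1 hz
    have hab : a ≠ b := fun h => hyz (by rw [h])
    refine absurd ?_ (not_le.2 (hcon a (hmem a ha).1 b (hmem b hb).1 hab))
    have hf3 := lat_finite (hk.smul (3 : ℝ))
    have hsub : ((A ×ˢ Finset.range (J + 1)).image fun x => x.1 + (x.2 : ℤ) * (a - b)) ⊆
        (T ×ˢ hf3.toFinset).image fun z => z.1 + ∑ i, w i * z.2 i := by
      intro z hz
      obtain ⟨⟨a', j⟩, haj, rfl⟩ := Finset.mem_image.1 hz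
      obtain ⟨ha', hj⟩ := Finset.mem_product.1 haj
      simp only [Finset.mem_range] at hj ha'
      refine Finset.mem_image.2 ⟨(t a', x a' + (j : ℤ) • (x a - x b)),
        Finset.mem_product.2 ⟨ht a' ha', ?_⟩, ?_⟩
      · rw [Set.Finite.mem_toFinset]
        show (fun i => ((x a' + (j : ℤ) • (x a - x b)) i : ℝ)) ∈ (3 : ℝ) • B
        have h1 : (fun i => (((x a' + (j : ℤ) • (x a - x b)) i : ℤ) : ℝ)) =
            (1 : ℝ) • (fun i => ((x a' i : ℤ) : ℝ)) + ((2 : ℝ) * ((j : ℝ) / J)) • β := by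
          have h2 : (2 * ((j : ℝ) / J)) • β = (j : ℝ) • ((fun i => ((x a i : ℤ) : ℝ)) -
              fun i => ((x b i : ℤ) : ℝ)) := by
            rw [h, smul_smul]
            congr 1
            ring
          rw [h2]
          funext i
          simp
        rw [h1]
        have hj1 : (j : ℝ) / J ≤ 1 := by
          rw [div_le_one hJr]
          exact_mod_cast Nat.lt_succ_iff.1 hj
        have hj0 : 0 ≤ (j : ℝ) / J := by positivity
        have hβ' : ((j : ℝ) / J) • β ∈ B := by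
          have hn : -(β) ∈ B := hs _ hβ
          have h3 := hc hβ hn (by linarith : (0 : ℝ) ≤ (1 + (j : ℝ) / J) / 2)
            (by linarith : (0 : ℝ) ≤ (1 - (j : ℝ) / J) / 2) (by ring)
          rw [smul_neg, ← sub_eq_add_neg, ← sub_smul] at h3
          have h4 : (1 + (j : ℝ) / J) / 2 - (1 - (j : ℝ) / J) / 2 = (j : ℝ) / J := by ring
          rw [h4] at h3
          exact h3
        rw [show (3 : ℝ) = 1 + 2 by norm_num, hc.add_smul zero_le_one zero_le_two]
        refine Set.add_mem_add (Set.smul_mem_smul_set (hx a' ha')) ?_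
        rw [mul_smul]
        exact Set.smul_mem_smul_set hβ'
      · show t a' + ∑ i, w i * (x a' + (j : ℤ) • (x a - x b)) i = a' + (j : ℤ) * (a - b)
        have e1 := hax a' ha'
        have e2 := hax a (hmem a ha).1
        have e3 := hax b (hmem b hb).1
        have e4 : t a = t b := by rw [(hmem a ha).2, (hmem b hb).2]
        have e5 : ∑ i, w i * (x a' + (j : ℤ) • (x a - x b)) i =
            ∑ i, w i * x a' i + j * (∑ i, w i * x a i - ∑ i, w i * x b i) := by
          rw [← Finset.sum_sub_distrib, Finset.mul_sum, ← Finset.sum_add_distrib]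
          refine Finset.sum_congr rfl fun i _ => ?_
          simp only [Pi.add_apply, Pi.smul_apply, Pi.sub_apply, smul_eq_mul]
          ring
        rw [e5]
        have e6 : a - b = ∑ i, w i * x a i - ∑ i, w i * x b i := by
          linarith
        rw [e6]
        linarith
    calc _ ≤ _ := Finset.card_le_card hsub
      _ ≤ _ := Finset.card_image_le
      _ = T.card * hf3.toFinset.card := Finset.card_product _ _
      _ ≤ T.card * (7 ^ d * A.card) := by
        refine Nat.mul_le_mul_left _ ?_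
        rw [← Set.ncard_eq_toFinset_card _ hf3]
        exact (lat_growth hc hk hi hs).trans (Nat.mul_le_mul_left _ hcard)

/-! ### Points in general position -/

theorem line_count (S : Finset (ℝ × ℝ)) (hS : GeneralPosition S) (w : ℝ × ℝ) (hw : w ≠ 0)
    (J : ℕ) : S.card * (J + 1) ≤
      2 * ((S ×ˢ Finset.range (J + 1)).image fun x => x.1 + (x.2 : ℝ) • w).card := by
  classical
  have h0 : S.card * (J + 1) = (S ×ˢ Finset.range (J + 1)).card := by
    rw [Finset.card_product, Finset.card_range]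
  rw [h0]
  refine Finset.card_le_mul_card_image _ 2 ?_
  intro z _
  by_contra hcon
  push Not at hcon
  obtain ⟨⟨p, i⟩, hp, ⟨q, j⟩, hq, ⟨r, k⟩, hr, hpq, hpr, hqr⟩ := Finset.two_lt_card.1 hcon
  simp only [Finset.mem_filter, Finset.mem_product] at hp hq hr
  have key : ∀ (a b : ℝ × ℝ) (i j : ℕ), a + (i : ℝ) • w = z → b + (j : ℝ) • w = z →
      (a, i) ≠ (b, j) → a ≠ b := by
    intro a b i j h1 h2 h3 h4
    subst h4
    apply h3
    rw [← h2] at h1
    have h5 := add_left_cancel h1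
    have h6 : ((i : ℝ) - j) • w = 0 := by rw [sub_smul, h5, sub_self]
    rcases smul_eq_zero.1 h6 with h7 | h7
    · have h8 : (i : ℝ) = j := sub_eq_zero.1 h7
      have h9 : i = j := by exact_mod_cast h8
      rw [h9]
    · exact absurd h7 hw
  have h1 := key p q i j hp.2 hq.2 hpq
  have h2 := key p r i k hp.2 hr.2 hpr
  have h3 := key q r j k hq.2 hr.2 hqr
  refine hS p hp.1.1 q hq.1.1 r hr.1.1 h1 h2 h3 ?_
  rw [collinear_iff_exists_forall_eq_smul_vadd]
  refine ⟨z, w, ?_⟩
  intro s hs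
  rw [Set.mem_insert_iff, Set.mem_insert_iff, Set.mem_singleton_iff] at hs
  have h4 : ∀ (a : ℝ × ℝ) (i : ℕ), a + (i : ℝ) • w = z → ∃ r : ℝ, a = r • w +ᵥ z := by
    intro a i h
    refine ⟨-(i : ℝ), ?_⟩
    rw [vadd_eq_add, neg_smul, ← h]
    abel
  rcases hs with rfl | rfl | rfl
  · exact h4 _ _ hp.2
  · exact h4 _ _ hq.2
  · exact h4 _ _ hr.2

/-- A rational functional, integral on `S` and nonzero on finitely many given vectors. -/
theorem exists_functional (S F : Finset (ℝ × ℝ)) (hF : ∀ z ∈ F, z ≠ 0) :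
    ∃ (g : (ℝ × ℝ) →ₗ[ℚ] ℚ) (ψ : ℝ × ℝ → ℤ), (∀ s ∈ S, (ψ s : ℚ) = g s) ∧
      ∀ z ∈ F, g z ≠ 0 := by
  classical
  obtain ⟨f, hf⟩ := Module.exists_dual_forall_apply_ne_zero (K := ℚ) (M := ℝ × ℝ)
    (fun z : {z // z ∈ F} => z.1) (fun z => hF z.1 z.2)
  let N : ℕ := ∏ s ∈ S, (f s).den
  have hN : N ≠ 0 := Finset.prod_ne_zero_iff.2 fun s _ => (f s).den_ne_zero
  have hNq : (N : ℚ) ≠ 0 := by exact_mod_cast hN
  have hex : ∀ s : ℝ × ℝ, ∃ m : ℤ, s ∈ S → (m : ℚ) = ((N : ℚ) • f) s := by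
    intro s
    by_cases hs : s ∈ S
    · obtain ⟨k, hk⟩ := Finset.dvd_prod_of_mem (fun s => (f s).den) hs
      refine ⟨k * (f s).num, fun _ => ?_⟩
      have h1 : (N : ℚ) = (f s).den * k := by exact_mod_cast hk
      rw [LinearMap.smul_apply, smul_eq_mul, h1]
      have h2 := Rat.mul_den_eq_num (f s)
      push_cast
      rw [← h2]
      ring
    · exact ⟨0, fun h => absurd h hs⟩
  choose ψ hψ using hex
  refine ⟨(N : ℚ) • f, ψ, hψ, ?_⟩
  intro z hz h
  rw [LinearMap.smul_apply, smul_eq_mul] at h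
  rcases mul_eq_zero.1 h with h | h
  · exact hNq h
  · exact hf ⟨z, hz⟩ h

theorem rat_nat_smul (g : (ℝ × ℝ) →ₗ[ℚ] ℚ) (j : ℕ) (w : ℝ × ℝ) :
    g ((j : ℝ) • w) = j * g w := by
  have h : ((j : ℝ) • w) = (j : ℚ) • w := by
    rw [Nat.cast_smul_eq_nsmul, Nat.cast_smul_eq_nsmul]
  rw [h, map_smul, smul_eq_mul]

/-- The main step. -/
theorem main_step (C : ℝ) (hC : 0 < C)
    (hQ : ∀ (K : ℝ) (A : Finset ℤ), A.Nonempty →
      (((A + A).card : ℝ) ≤ K * (A.card : ℝ)) →
      ∃ (d : ℕ) (B : Set (Fin d → ℝ)) (v : Fin d → ℤ) (T : Finset ℤ),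
        (d : ℝ) ≤ C * (1 + Real.log K) ∧
        Convex ℝ B ∧ IsCompact B ∧ (interior B).Nonempty ∧ (∀ x ∈ B, -x ∈ B) ∧
        ({x : Fin d → ℤ | (fun i => (x i : ℝ)) ∈ B}.ncard ≤ A.card) ∧
        ((T.card : ℝ) ≤ Real.exp (C * (1 + Real.log K) * (1 + Real.log (1 + Real.log K)))) ∧
        ∀ a ∈ A, ∃ t ∈ T, ∃ x : Fin d → ℤ,
          (fun i => (x i : ℝ)) ∈ B ∧ a = t + ∑ i, v i * x i)
    (S : Finset (ℝ × ℝ)) (hS : GeneralPosition S) (hne : S.Nonempty) (ℓ : ℝ) (hℓ : 0 ≤ ℓ)
    (hV : ((vectors S).card : ℝ) = S.card * Real.exp ℓ) :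
    Real.log S.card ≤ (3 * C + 3 * C ^ 2) * (1 + 2 * ℓ) ^ 2 * (1 + Real.log (1 + 2 * ℓ)) := by
  classical
  have hn0 : 0 < S.card := hne.card_pos
  have hnr : (0 : ℝ) < S.card := by exact_mod_cast hn0
  set k : ℝ := 1 + 2 * ℓ with hk
  have hk1 : 1 ≤ k := by linarith
  have hlogk : 0 ≤ Real.log k := Real.log_nonneg hk1
  set E : ℝ := Real.exp (C * k * (1 + Real.log k)) with hE
  set D : ℝ := C * k with hD
  have hD0 : 0 < D := by positivity
  have hE1 : 1 ≤ E := Real.one_le_exp (by positivity)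
  have h7D : (1 : ℝ) ≤ (7 : ℝ) ^ D := Real.one_le_rpow (by norm_num) hD0.le
  set J : ℕ := ⌈2 * (E * (7 : ℝ) ^ D)⌉₊ with hJ
  have hJge : 2 * (E * (7 : ℝ) ^ D) ≤ J := Nat.le_ceil _
  have hE7 : 1 ≤ E * (7 : ℝ) ^ D := one_le_mul_of_one_le_of_one_le hE1 h7D
  have hJle : (J : ℝ) + 1 ≤ 4 * (E * (7 : ℝ) ^ D) := by
    have := Nat.ceil_lt_add_one (show 0 ≤ 2 * (E * (7 : ℝ) ^ D) by positivity)
    rw [← hJ] at this
    linarith
  have hJ0 : 0 < J := by
    have : (0 : ℝ) < J := by linarith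
    exact_mod_cast this
  -- the functional
  let dif : (((ℝ × ℝ) × (ℝ × ℝ)) × ((ℝ × ℝ) × (ℝ × ℝ))) × (ℕ × ℕ) → ℝ × ℝ := fun x =>
    (x.1.1.1 + (x.2.1 : ℝ) • (x.1.2.1 - x.1.2.2)) - (x.1.1.2 + (x.2.2 : ℝ) • (x.1.2.1 - x.1.2.2))
  let F : Finset (ℝ × ℝ) := ((((S ×ˢ S) ×ˢ (S ×ˢ S)) ×ˢ
    (Finset.range (J + 1) ×ˢ Finset.range (J + 1))).image dif).filter fun z => z ≠ 0
  obtain ⟨g, ψ, hψ, hg⟩ := exists_functional S F fun z hz => (Finset.mem_filter.1 hz).2
  have hinj : ∀ p ∈ S, ∀ q ∈ S, ∀ a ∈ S, ∀ b ∈ S, ∀ i < J + 1, ∀ j < J + 1,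
      g (p + (i : ℝ) • (a - b)) = g (q + (j : ℝ) • (a - b)) →
      p + (i : ℝ) • (a - b) = q + (j : ℝ) • (a - b) := by
    intro p hp q hq a ha b hb i hi j hj h
    by_contra hcon
    refine hg ((p + (i : ℝ) • (a - b)) - (q + (j : ℝ) • (a - b))) ?_ ?_
    · refine Finset.mem_filter.2 ⟨Finset.mem_image.2 ⟨(((p, q), (a, b)), (i, j)), ?_, rfl⟩,
        sub_ne_zero.2 hcon⟩
      simp only [Finset.mem_product, Finset.mem_range]
      exact ⟨⟨⟨hp, hq⟩, ha, hb⟩, hi, hj⟩
    · rw [map_sub, h, sub_self]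
  let A : Finset ℤ := S.image ψ
  have hψinj : Set.InjOn ψ (S : Set (ℝ × ℝ)) := by
    intro p hp q hq h
    have h1 : g p = g q := by rw [← hψ p hp, ← hψ q hq, h]
    have h2 := hinj p hp q hq p hp p hp 0 (Nat.succ_pos _) 0 (Nat.succ_pos _)
    simpa using h2 (by simpa using h1)
  have hAc : A.card = S.card := Finset.card_image_of_injOn hψinj
  have hAne : A.Nonempty := hne.image ψ
  have hvS : vectors S = S - S := by
    ext z
    rw [vectors, Finset.mem_image, Finset.mem_sub]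
    constructor
    · rintro ⟨x, hx, rfl⟩
      exact ⟨x.2, (Finset.mem_product.1 hx).2, x.1, (Finset.mem_product.1 hx).1, rfl⟩
    · rintro ⟨q, hq, p, hp, rfl⟩
      exact ⟨(p, q), Finset.mem_product.2 ⟨hp, hq⟩, rfl⟩
  have hSS : ((S + S).card : ℝ) ≤ Real.exp (2 * ℓ) * S.card := by
    have h1 := Finset.pluennecke_ruzsa_inequality_nsmul_sub hne S 2
    have h2 : (((2 • S).card : ℚ≥0) : ℝ) ≤ (((((S - S).card : ℚ≥0) / (S.card : ℚ≥0)) ^ 2 *
        (S.card : ℚ≥0) : ℚ≥0) : ℝ) := by exact_mod_cast h1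
    push_cast at h2
    rw [two_nsmul, ← hvS, hV, mul_div_cancel_left₀ _ hnr.ne', ← Real.exp_nat_mul] at h2
    exact_mod_cast h2
  have hAA : ((A + A).card : ℝ) ≤ Real.exp (2 * ℓ) * A.card := by
    rw [hAc]
    refine le_trans ?_ hSS
    have hex : ∀ z ∈ A + A, ∃ y ∈ S + S, g y = z := by
      intro z hz
      obtain ⟨x, hx, y, hy, rfl⟩ := Finset.mem_add.1 hz
      obtain ⟨p, hp, rfl⟩ := Finset.mem_image.1 hx
      obtain ⟨q, hq, rfl⟩ := Finset.mem_image.1 hy
      exact ⟨p + q, Finset.add_mem_add hp hq, by rw [map_add, ← hψ p hp, ← hψ q hq]; push_cast; rfl⟩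
    have hcard : (A + A).card ≤ (S + S).card := by
      calc (A + A).card = ((A + A).image fun z : ℤ => (z : ℚ)).card :=
            (Finset.card_image_of_injective _ Int.cast_injective).symm
        _ ≤ ((S + S).image g).card := by
            refine Finset.card_le_card ?_
            intro z hz
            obtain ⟨y, hy, rfl⟩ := Finset.mem_image.1 hz
            obtain ⟨x, hx, h⟩ := hex y hy
            exact Finset.mem_image.2 ⟨x, hx, h⟩
        _ ≤ _ := Finset.card_image_le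
    exact_mod_cast hcard
  have hlogK : Real.log (Real.exp (2 * ℓ)) = 2 * ℓ := Real.log_exp _
  obtain ⟨d, B, w, T, hd, hBc, hBk, hBi, hBs, hBn, hT, hcov⟩ := hQ _ A hAne hAA
  rw [hlogK, ← hk] at hd hT
  by_contra hcon
  push Not at hcon
  -- the size of `S` is large
  have hbig : E * ((J : ℝ) + 1) ^ D < S.card := by
    rw [← Real.log_lt_log_iff (by positivity) hnr]
    refine lt_of_le_of_lt ?_ hcon
    rw [Real.log_mul (by positivity) (by positivity), Real.log_rpow (by positivity), hE,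
      Real.log_exp]
    have h1 : Real.log ((J : ℝ) + 1) ≤ Real.log (4 * (E * (7 : ℝ) ^ D)) :=
      Real.log_le_log (by positivity) hJle
    rw [Real.log_mul (by norm_num) (by positivity), Real.log_mul (by positivity) (by positivity),
      Real.log_rpow (by norm_num), hE, Real.log_exp] at h1
    have h4 : Real.log 4 ≤ 2 := by
      rw [show (4 : ℝ) = 2 ^ 2 by norm_num, Real.log_pow]
      have := Real.log_two_lt_d9
      push_cast
      linarith
    have h7 : Real.log 7 ≤ 2 := by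
      rw [Real.log_le_iff_le_exp (by norm_num)]
      have := Real.exp_one_gt_d9
      calc (7 : ℝ) ≤ 2.7182818283 ^ 2 := by norm_num
        _ ≤ Real.exp 1 ^ 2 := by gcongr
        _ = Real.exp 2 := by rw [← Real.exp_nat_mul]; norm_num
    have h8 : Real.log ((J : ℝ) + 1) ≤ 2 + C * k * (1 + Real.log k) + D * 2 := by
      have : D * Real.log 7 ≤ D * 2 := by gcongr
      linarith
    have h9 : D * Real.log ((J : ℝ) + 1) ≤ D * (2 + C * k * (1 + Real.log k) + D * 2) := by
      gcongr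
    refine (add_le_add_right h9 _).trans ?_
    have hkk : k ≤ k ^ 2 := by nlinarith
    have hCk : 0 ≤ C * k := by positivity
    have m1 : C * k * (1 + Real.log k) ≤ C * k ^ 2 * (1 + Real.log k) := by gcongr
    have m2 : C * k * 2 ≤ 2 * C * k ^ 2 * (1 + Real.log k) := by
      have : C * k * 2 * 1 ≤ 2 * C * k ^ 2 * (1 + Real.log k) := by
        have e : C * k * 2 ≤ 2 * C * k ^ 2 := by nlinarith
        exact mul_le_mul e (by linarith) zero_le_one (by positivity)
      linarith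
    have m3 : C * k * (C * k * 2) ≤ 2 * C ^ 2 * k ^ 2 * (1 + Real.log k) := by
      have e : C * k * (C * k * 2) = 2 * C ^ 2 * k ^ 2 * 1 := by ring
      rw [e]
      exact mul_le_mul_of_nonneg_left (by linarith) (by positivity)
    have m4 : C * k * (C * k * (1 + Real.log k)) = C ^ 2 * k ^ 2 * (1 + Real.log k) := by ring
    rw [hD]
    have e : C * k * (2 + C * k * (1 + Real.log k) + C * k * 2) =
        C * k * 2 + C * k * (C * k * (1 + Real.log k)) + C * k * (C * k * 2) := by ring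
    rw [e, m4]
    have e2 : (3 * C + 3 * C ^ 2) * k ^ 2 * (1 + Real.log k) =
        C * k ^ 2 * (1 + Real.log k) + 2 * C * k ^ 2 * (1 + Real.log k) +
        C ^ 2 * k ^ 2 * (1 + Real.log k) + 2 * C ^ 2 * k ^ 2 * (1 + Real.log k) := by ring
    rw [e2]
    linarith
  have hTd : T.card * (J + 1) ^ d < A.card := by
    have h1 : ((J : ℝ) + 1) ^ d ≤ ((J : ℝ) + 1) ^ D := by
      rw [← Real.rpow_natCast]
      exact Real.rpow_le_rpow_of_exponent_le (by linarith [show (0 : ℝ) ≤ J by positivity]) hd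
    have h2 : (T.card : ℝ) * ((J : ℝ) + 1) ^ d < S.card :=
      lt_of_le_of_lt (mul_le_mul hT h1 (by positivity) (by positivity)) hbig
    rw [hAc]
    exact_mod_cast h2
  obtain ⟨a, ha, b, hb, hab, hcard⟩ := exists_step A w T hBc hBk hBi hBs hBn hcov J hJ0 hTd
  obtain ⟨p, hp, rfl⟩ := Finset.mem_image.1 ha
  obtain ⟨q, hq, rfl⟩ := Finset.mem_image.1 hb
  have hpq : p - q ≠ 0 := sub_ne_zero.2 fun h => hab (by rw [h])
  have hline := line_count S hS (p - q) hpq J
  have hle : ((S ×ˢ Finset.range (J + 1)).image fun x => x.1 + (x.2 : ℝ) • (p - q)).card ≤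
      ((A ×ˢ Finset.range (J + 1)).image fun x => x.1 + (x.2 : ℤ) * (ψ p - ψ q)).card := by
    have hginj : Set.InjOn g (((S ×ˢ Finset.range (J + 1)).image
        fun x => x.1 + (x.2 : ℝ) • (p - q) : Finset (ℝ × ℝ)) : Set (ℝ × ℝ)) := by
      intro y hy z hz h
      obtain ⟨⟨y1, i⟩, hy1, rfl⟩ := Finset.mem_image.1 (Finset.mem_coe.1 hy)
      obtain ⟨⟨z1, j⟩, hz1, rfl⟩ := Finset.mem_image.1 (Finset.mem_coe.1 hz)
      rw [Finset.mem_product, Finset.mem_range] at hy1 hz1
      exact hinj y1 hy1.1 z1 hz1.1 p hp q hq i hy1.2 j hz1.2 h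
    rw [← Finset.card_image_of_injOn hginj,
      ← Finset.card_image_of_injective _ (Int.cast_injective (α := ℚ))]
    refine Finset.card_le_card ?_
    intro z hz
    obtain ⟨y, hy, rfl⟩ := Finset.mem_image.1 hz
    obtain ⟨⟨y1, i⟩, hy1, rfl⟩ := Finset.mem_image.1 hy
    rw [Finset.mem_product] at hy1
    refine Finset.mem_image.2 ⟨ψ y1 + (i : ℤ) * (ψ p - ψ q), Finset.mem_image.2 ⟨(ψ y1, i),
      Finset.mem_product.2 ⟨Finset.mem_image_of_mem _ hy1.1, hy1.2⟩, rfl⟩, ?_⟩
    show ((ψ y1 + (i : ℤ) * (ψ p - ψ q) : ℤ) : ℚ) = g (y1 + (i : ℝ) • (p - q))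
    rw [map_add, rat_nat_smul, map_sub]
    push_cast
    rw [hψ y1 hy1.1, hψ p hp, hψ q hq]
  have hfin : S.card * (J + 1) ≤ 2 * (T.card * (7 ^ d * S.card)) := by
    rw [← hAc]
    rw [← hAc] at hline
    exact hline.trans (Nat.mul_le_mul_left 2 (hle.trans hcard))
  have hfin' : (S.card : ℝ) * ((J : ℝ) + 1) ≤ 2 * (T.card * (7 ^ d * S.card)) := by
    exact_mod_cast hfin
  have h7d : (7 : ℝ) ^ d ≤ (7 : ℝ) ^ D := by
    rw [← Real.rpow_natCast]
    exact Real.rpow_le_rpow_of_exponent_le (by norm_num) hd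
  have h1 : (J : ℝ) + 1 ≤ 2 * (T.card * 7 ^ d) := by
    have : (S.card : ℝ) * ((J : ℝ) + 1) ≤ S.card * (2 * (T.card * 7 ^ d)) := by linarith
    exact le_of_mul_le_mul_left this hnr
  have h2 : (T.card : ℝ) * 7 ^ d ≤ E * (7 : ℝ) ^ D :=
    mul_le_mul hT h7d (by positivity) (by positivity)
  linarith

/-! ### Conclusion -/

theorem two_mul_le (S : Finset (ℝ × ℝ)) (hne : S.Nonempty) :
    2 * S.card ≤ (vectors S).card + 1 := by
  classical
  let F : Finset (ℝ × ℝ) := ((S ×ˢ S).image fun x => x.1 - x.2).filter fun z => z ≠ 0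
  obtain ⟨g, ψ, hψ, hg⟩ := exists_functional S F fun z hz => (Finset.mem_filter.1 hz).2
  have hinj : Set.InjOn g (S : Set (ℝ × ℝ)) := by
    intro p hp q hq h
    by_contra hcon
    refine hg (p - q) (Finset.mem_filter.2 ⟨Finset.mem_image.2 ⟨(p, q),
      Finset.mem_product.2 ⟨hp, hq⟩, rfl⟩, sub_ne_zero.2 hcon⟩) ?_
    rw [map_sub, h, sub_self]
  let A : Finset ℚ := S.image g
  have hAc : A.card = S.card := Finset.card_image_of_injOn hinj
  have hAne : A.Nonempty := hne.image g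
  have h1 := cauchy_davenport_add_of_linearOrder_isCancelAdd hAne hAne.neg
  rw [Finset.card_neg, hAc] at h1
  have h2 : (A + -A).card ≤ (vectors S).card := by
    refine le_trans (Finset.card_le_card (t := (vectors S).image g) ?_) Finset.card_image_le
    intro z hz
    obtain ⟨x, hx, y, hy, rfl⟩ := Finset.mem_add.1 hz
    obtain ⟨p, hp, rfl⟩ := Finset.mem_image.1 hx
    rw [Finset.mem_neg'] at hy
    obtain ⟨q, hq, h⟩ := Finset.mem_image.1 hy
    refine Finset.mem_image.2 ⟨p - q, Finset.mem_image.2 ⟨(q, p), Finset.mem_product.2 ⟨hq, hp⟩,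
      rfl⟩, ?_⟩
    rw [map_sub, h]
    ring
  omega

/-- Cross product of two vectors. -/
def cr (x y : ℝ × ℝ) : ℝ := x.1 * y.2 - x.2 * y.1

theorem collinear_cr {p q r : ℝ × ℝ} (h : Collinear ℝ {p, q, r}) : cr (q - p) (r - p) = 0 := by
  rw [collinear_iff_of_mem (p₀ := p) (by simp)] at h
  obtain ⟨w, hw⟩ := h
  obtain ⟨a, ha⟩ := hw q (by simp)
  obtain ⟨b, hb⟩ := hw r (by simp)
  rw [vadd_eq_add] at ha hb
  rw [ha, hb]
  simp only [cr, add_sub_cancel_right, Prod.smul_fst, Prod.smul_snd, smul_eq_mul]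
  ring

theorem exists_gp (n : ℕ) : ∃ S : Finset (ℝ × ℝ), S.card = n ∧ GeneralPosition S := by
  classical
  let f : ℕ → ℝ × ℝ := fun i => ((i : ℝ), (i : ℝ) ^ 2)
  have hf : Function.Injective f := by
    intro i j h
    have h1 : (i : ℝ) = j := congrArg Prod.fst h
    exact_mod_cast h1
  refine ⟨(Finset.range n).image f, ?_, ?_⟩
  · rw [Finset.card_image_of_injective _ hf, Finset.card_range]
  · intro p hp q hq r hr hpq hpr hqr hcol
    obtain ⟨i, _, rfl⟩ := Finset.mem_image.1 hp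
    obtain ⟨j, _, rfl⟩ := Finset.mem_image.1 hq
    obtain ⟨k, _, rfl⟩ := Finset.mem_image.1 hr
    have h := collinear_cr hcol
    have h1 : cr (f j - f i) (f k - f i) = ((j : ℝ) - i) * (k - i) * (k - j) := by
      simp only [cr, f, Prod.fst_sub, Prod.snd_sub]
      ring
    rw [h1] at h
    have hij : (j : ℝ) - i ≠ 0 := sub_ne_zero.2 fun h => hpq (by
      have : j = i := by exact_mod_cast h
      rw [this])
    have hik : (k : ℝ) - i ≠ 0 := sub_ne_zero.2 fun h => hpr (by
      have : k = i := by exact_mod_cast h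
      rw [this])
    have hjk : (k : ℝ) - j ≠ 0 := sub_ne_zero.2 fun h => hqr (by
      have : k = j := by exact_mod_cast h
      rw [this])
    exact (mul_ne_zero (mul_ne_zero hij hik) hjk) h

/-- There is a constant `c > 0` such that `n ≥ 2` points in general position in the plane always
determine at least `n * exp (c * √(log n / (1 + log (1 + log n))))` vectors. -/
theorem result : ∃ c : ℝ, 0 < c ∧ ∀ n : ℕ, 2 ≤ n →
    (n : ℝ) * Real.exp (c * √(Real.log n / (1 + Real.log (1 + Real.log n)))) ≤ v n := by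
  obtain ⟨C, hC, hQ⟩ := Pool.Agent.QFR.quasi_optimal
  set M : ℝ := 3 * C + 3 * C ^ 2 + 1 with hM
  have hM1 : 1 ≤ M := by
    have : 0 ≤ 3 * C + 3 * C ^ 2 := by positivity
    linarith
  refine ⟨1 / (5 * √M), by positivity, ?_⟩
  intro n hn
  have hmem : v n ∈ {m | ∃ S : Finset (ℝ × ℝ), S.card = n ∧ GeneralPosition S ∧
      (vectors S).card = m} := by
    refine Nat.sInf_mem ?_
    obtain ⟨S, h1, h2⟩ := exists_gp n
    exact ⟨_, S, h1, h2, rfl⟩
  obtain ⟨S, hSn, hS, hSv⟩ := hmem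
  have hn0 : (0 : ℝ) < n := by
    have : 0 < n := by omega
    exact_mod_cast this
  have hne : S.Nonempty := by
    rw [← Finset.card_pos, hSn]
    omega
  have hV2 : (3 / 2 : ℝ) * n ≤ v n := by
    have h1 := two_mul_le S hne
    rw [hSn, hSv] at h1
    have h2 : (2 : ℝ) * n ≤ v n + 1 := by exact_mod_cast h1
    have h3 : (2 : ℝ) ≤ n := by exact_mod_cast hn
    linarith
  have hVpos : (0 : ℝ) < v n := by linarith
  set ℓ : ℝ := Real.log (v n / n) with hℓ
  have hratio : (3 / 2 : ℝ) ≤ v n / n := by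
    rw [le_div_iff₀ hn0]
    exact hV2
  have hℓ3 : 1 / 3 ≤ ℓ := by
    rw [hℓ, Real.le_log_iff_exp_le (by positivity)]
    refine le_trans ?_ hratio
    have h1 := Real.exp_one_lt_d9
    have h2 : Real.exp (1 / 3) ^ 3 = Real.exp 1 := by
      rw [← Real.exp_nat_mul]
      norm_num
    by_contra h3
    push Not at h3
    have h4 : (3 / 2 : ℝ) ^ 3 < Real.exp (1 / 3) ^ 3 := by gcongr
    rw [h2] at h4
    norm_num at h4 h1
    linarith
  have hVexp : ((vectors S).card : ℝ) = S.card * Real.exp ℓ := by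
    rw [hSv, hSn, hℓ, Real.exp_log (by positivity)]
    field_simp
  have hmain := main_step C hC hQ S hS hne ℓ (by linarith) hVexp
  rw [hSn] at hmain
  set x : ℝ := Real.log n with hx
  have hx0 : 0 ≤ x := Real.log_nonneg (by exact_mod_cast (by omega : 1 ≤ n))
  set y : ℝ := 1 + Real.log (1 + x) with hy
  have hy1 : 1 ≤ y := by
    have : 0 ≤ Real.log (1 + x) := Real.log_nonneg (by linarith)
    linarith
  set k : ℝ := 1 + 2 * ℓ with hk
  have hk1 : 1 ≤ k := by linarith
  have hxk : x ≤ M * k ^ 2 * y := by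
    rcases le_total k (1 + x) with h | h
    · have h1 : 1 + Real.log k ≤ y := by
        have := Real.log_le_log (by linarith) h
        linarith
      have h2 : 0 ≤ 1 + Real.log k := by
        have := Real.log_nonneg hk1
        linarith
      calc x ≤ (3 * C + 3 * C ^ 2) * k ^ 2 * (1 + Real.log k) := hmain
        _ ≤ M * k ^ 2 * (1 + Real.log k) := by
            gcongr
            linarith
        _ ≤ M * k ^ 2 * y := by gcongr
    · calc x ≤ k := by linarith
        _ ≤ k ^ 2 := by nlinarith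
        _ = 1 * k ^ 2 * 1 := by ring
        _ ≤ M * k ^ 2 * y := by gcongr
  have hsq : √(x / y) ≤ √M * k := by
    rw [← Real.sqrt_sq (by linarith : (0 : ℝ) ≤ k), ← Real.sqrt_mul (by linarith)]
    refine Real.sqrt_le_sqrt ?_
    rw [div_le_iff₀ (by linarith)]
    exact hxk
  have hsM : 0 < √M := Real.sqrt_pos.2 (by linarith)
  have hfin : 1 / (5 * √M) * √(x / y) ≤ ℓ := by
    calc 1 / (5 * √M) * √(x / y) ≤ 1 / (5 * √M) * (√M * k) := by gcongr
      _ = k / 5 := by field_simp
      _ ≤ ℓ := by linarith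
  calc (n : ℝ) * Real.exp (1 / (5 * √M) * √(x / y)) ≤ n * Real.exp ℓ := by gcongr
    _ = v n := by
      rw [hℓ, Real.exp_log (by positivity)]
      field_simp

end Pool.Agent.Results.MP_577aaf_co.LowerBound
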